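import Pool.Agent.H33.NFA.A
import Pool.Agent.H85.AVR.KER
import Pool.Agent.H46.AVR.HOM
import Pool.Agent.H62.AVR.PLL
import Pool.Agent.H2.AVR.RNK
import Pool.Agent.H57.AVR.MWL
import Pool.Agent.H16.AVS.EMB
import Pool.Agent.H8.NF.NDBL

/-!
# NFA: the group of points and the 2-Selmer group
-/

set_option autoImplicit false

namespace Pool.NFA

open Polynomial Matrix NumberField IsDedekindDomain Pool.HYP Pool.TOW Pool.T1 Pool.NF
open Pool.AVR (Mod2 Pt cub OnC)

namespace H33B

open Pool.Agent.H16.AVS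

section Emb

variable {K : Type} [Field K]

/-- The group of the points of `y² = f(x)`. -/
abbrev PtG (f : K[X]) : Type := Pt (f.coeff 2) (f.coeff 1) (f.coeff 0)

theorem cub_f {f : K[X]} (hf : f.Monic) (hd : f.natDegree = 3) :
    cub (f.coeff 2) (f.coeff 1) (f.coeff 0) = f := by
  have h1 := f.as_sum_range_C_mul_X_pow' (n := 4) (by rw [hd]; norm_num)
  have h3 : f.coeff 3 = 1 := by
    have := hf.coeff_natDegree
    rwa [hd] at this
  conv_rhs => rw [h1]
  simp only [Finset.sum_range_succ, Finset.sum_range_zero, zero_add, pow_zero, mul_one, pow_one]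
  rw [h3, C_1, one_mul]
  unfold cub
  ring

/-- The same class: one is the other times a square. -/
theorem cle {f p q : K[X]} {u v : (AdjoinRoot f)ˣ} (hu : AdjoinRoot.mk f p = (u : AdjoinRoot f))
    (hv : AdjoinRoot.mk f q = (v : AdjoinRoot f))
    (h : (QuotientGroup.mk u : (AdjoinRoot f)ˣ ⧸ Sq2 f) = QuotientGroup.mk v) :
    ∃ s : K[X], f ∣ q - p * s ^ 2 := by
  obtain ⟨w, hw⟩ := QuotientGroup.eq.1 h
  obtain ⟨s, hs⟩ := AdjoinRoot.mk_surjective (g := f) (w : AdjoinRoot f)
  refine ⟨s, AdjoinRoot.mk_eq_zero.1 ?_⟩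
  rw [map_sub, map_mul, map_pow, hs, hu, hv, sub_eq_zero]
  have h1 : v = u * w ^ 2 := by
    have h2 : w ^ 2 = u⁻¹ * v := hw
    rw [h2, mul_inv_cancel_left]
  rw [h1]
  push_cast
  ring

theorem y_ne' {f : K[X]} (hf : Irreducible f) (hd : f.natDegree = 3) {x y : K}
    (h : y ^ 2 = f.eval x) : y ≠ 0 := by
  rintro rfl
  have h1 : f.eval x = 0 := by
    rw [← h]
    ring
  have h2 := Polynomial.degree_eq_one_of_irreducible_of_root hf h1
  rw [Polynomial.degree_eq_natDegree hf.ne_zero, hd] at h2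
  norm_cast at h2

theorem onC_eval {f : K[X]} (hf : f.Monic) (hd : f.natDegree = 3) {x y : K}
    (h : OnC (f.coeff 2) (f.coeff 1) (f.coeff 0) x y) : y ^ 2 = f.eval x := by
  rw [← cub_f hf hd, cub_eval]
  exact h

theorem isU {f : K[X]} (hf : f.Monic) (hd : f.natDegree = 3) {x y : K}
    (h : OnC (f.coeff 2) (f.coeff 1) (f.coeff 0) x y) (hy : y ≠ 0) :
    IsUnit (AdjoinRoot.mk f (C x - X)) := by
  have h1 := fac _ _ _ x y h hy
  rw [cub_f hf hd] at h1
  have h3 : AdjoinRoot.mk f (1 - (C x - X) * Pool.AVR.hh (f.coeff 2) (f.coeff 1) x y) = 0 :=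
    AdjoinRoot.mk_eq_zero.mpr h1
  rw [map_sub, map_mul, map_one, sub_eq_zero] at h3
  exact IsUnit.of_mul_eq_one _ h3.symm

open Classical in
/-- The class of a point. -/
noncomputable def cls (f : K[X]) : PtG f → (AdjoinRoot f)ˣ ⧸ Sq2 f
  | .zero => 1
  | .some x _ _ => if h : IsUnit (AdjoinRoot.mk f (C x - X)) then
      QuotientGroup.mk h.unit else 1

open Classical in
theorem cls_some (f : K[X]) (x y : K)
    (h : (Pool.AVR.E (f.coeff 2) (f.coeff 1) (f.coeff 0)).toAffine.Nonsingular x y)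
    (hU : IsUnit (AdjoinRoot.mk f (C x - X))) :
    cls f (WeierstrassCurve.Affine.Point.some x y h) = QuotientGroup.mk hU.unit :=
  dif_pos hU

open Classical in
theorem cls_mem {f : K[X]} (hf : f.Monic) (hd : f.natDegree = 3) (hirr : Irreducible f)
    (R : PtG f) : cls f R ∈ Sel2 f ∪ {1} := by
  cases R with
  | zero => exact Or.inr rfl
  | some x y h =>
    have hC := onC_of _ _ _ x y h
    have hev := onC_eval hf hd hC
    have hy := y_ne' hirr hd hev
    have hU := isU hf hd hC hy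
    rw [cls_some f x y h hU]
    refine Or.inl ⟨hU.unit, C x - X, rfl, hU.unit_spec.symm, ?_, ?_⟩
    · refine ⟨y, ?_⟩
      rw [norm_sub f hf, ← hev, pow_two]
    · intro L _ O ι _
      refine ⟨ι x, ι y, 1, ?_, (map_ne_zero ι).mpr hy, ?_⟩
      · rw [eval_map, eval₂_hom, ← hev, map_pow]
      · simp

open Classical in
theorem cls_inj {f : K[X]} (h2 : (2 : K) ≠ 0) (hf : f.Monic) (hd : f.natDegree = 3)
    (hirr : Irreducible f) (hsep : f.Separable) (R R' : PtG f) (he : cls f R = cls f R') :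
    ∃ Q : PtG f, R - R' = Q + Q := by
  have hKER := Pool.AVR.KER_thm
  have hHOM := Pool.AVR.hom_thm hKER
  have hsep' : (cub (f.coeff 2) (f.coeff 1) (f.coeff 0)).Separable := by rwa [cub_f hf hd]
  cases R with
  | zero =>
    cases R' with
    | zero => exact ⟨0, by simp⟩
    | some x y h =>
      have hC := onC_of _ _ _ x y h
      have hy := y_ne' hirr hd (onC_eval hf hd hC)
      have hU := isU hf hd hC hy
      have h3 := cls_some f x y h hU
      have h4 : cls f (WeierstrassCurve.Affine.Point.zero) = QuotientGroup.mk 1 := rfl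
      rw [h3, h4] at he
      obtain ⟨s, hs⟩ := cle (p := 1) (by simp) hU.unit_spec.symm he
      rw [one_mul] at hs
      obtain ⟨Q, hQ⟩ := hKER K h2 _ _ _ hsep' x y h s (by rwa [cub_f hf hd])
      refine ⟨-Q, ?_⟩
      have : (WeierstrassCurve.Affine.Point.zero : PtG f) = 0 := rfl
      rw [this, hQ]
      abel
  | some x y h =>
    have hC := onC_of _ _ _ x y h
    have hy := y_ne' hirr hd (onC_eval hf hd hC)
    have hU := isU hf hd hC hy
    have h3 := cls_some f x y h hU
    cases R' with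
    | zero =>
      have h4 : cls f (WeierstrassCurve.Affine.Point.zero) = QuotientGroup.mk 1 := rfl
      rw [h3, h4] at he
      obtain ⟨s, hs⟩ := cle (p := 1) (by simp) hU.unit_spec.symm he.symm
      rw [one_mul] at hs
      obtain ⟨Q, hQ⟩ := hKER K h2 _ _ _ hsep' x y h s (by rwa [cub_f hf hd])
      refine ⟨Q, ?_⟩
      have : (WeierstrassCurve.Affine.Point.zero : PtG f) = 0 := rfl
      rw [this, hQ]
      abel
    | some x' y' h' =>
      have hC' := onC_of _ _ _ x' y' h'
      have hy' := y_ne' hirr hd (onC_eval hf hd hC')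
      have hU' := isU hf hd hC' hy'
      have h3' := cls_some f x' y' h' hU'
      rw [h3, h3'] at he
      obtain ⟨s, hs⟩ := cle hU.unit_spec.symm hU'.unit_spec.symm he
      refine hHOM K h2 _ _ _ hsep' x y h x' y' h' ((C x - X) * s) hy hy' ?_
      rw [cub_f hf hd]
      have h5 : (C x - X) * (C x' - X) - ((C x - X) * s) ^ 2 =
          (C x' - X - (C x - X) * s ^ 2) * (C x - X) := by ring
      rw [h5]
      exact hs.mul_right _

open Classical in
/-- `E / 2E` and the Selmer group. -/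
theorem emba {f : K[X]} (h2 : (2 : K) ≠ 0) (hf : f.Monic) (hd : f.natDegree = 3)
    (hirr : Irreducible f) (hsep : f.Separable) (hfin : (Sel2 f).Finite) :
    Finite (Mod2 (PtG f)) ∧ Nat.card (Mod2 (PtG f)) ≤ (Sel2 f).ncard + 1 := by
  have hfin1 : (Sel2 f ∪ {1}).Finite := hfin.union (Set.finite_singleton _)
  obtain ⟨r, hr⟩ : ∃ r : Mod2 (PtG f) → PtG f, ∀ ξ, (QuotientAddGroup.mk (r ξ) : Mod2 (PtG f)) = ξ :=
    ⟨fun ξ => ξ.out, fun ξ => QuotientAddGroup.out_eq' ξ⟩
  obtain ⟨φ, hφ⟩ : ∃ φ : Mod2 (PtG f) → ↥(Sel2 f ∪ {1}), ∀ ξ, (φ ξ : _) = cls f (r ξ) :=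
    ⟨fun ξ => ⟨cls f (r ξ), cls_mem hf hd hirr _⟩, fun _ => rfl⟩
  have hinj : Function.Injective φ := by
    intro ξ η h
    have h1 : cls f (r ξ) = cls f (r η) := by rw [← hφ, ← hφ, h]
    obtain ⟨Q, hQ⟩ := cls_inj h2 hf hd hirr hsep _ _ h1
    rw [← hr ξ, ← hr η, eq_comm, QuotientAddGroup.eq]
    refine ⟨Q, ?_⟩
    show 2 • Q = -r η + r ξ
    rw [two_nsmul, ← hQ]
    abel
  have : Finite ↥(Sel2 f ∪ {1}) := hfin1.to_subtype
  refine ⟨Finite.of_injective φ hinj, ?_⟩
  refine (Nat.card_le_card_of_injective φ hinj).trans ?_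
  rw [Nat.card_coe_set_eq]
  exact (Set.ncard_union_le _ _).trans (by rw [Set.ncard_singleton])

end Emb

section Mw

open Classical in
/-- Mordell-Weil, if `E / 2E` is finite. -/
theorem mwk {K : Type} [Field K] [NumberField K] {f : K[X]} (hf : f.Monic) (hd : f.natDegree = 3)
    (hsep : f.Separable) (hfin : Finite (Mod2 (PtG f))) : AddGroup.FG (PtG f) := by
  have hell : (Pool.AVR.E (f.coeff 2) (f.coeff 1) (f.coeff 0)).IsElliptic :=
    NDBL8.ell two_ne_zero _ _ _ (by
      have h1 := cub_f hf hd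
      unfold cub at h1
      rwa [h1])
  exact Pool.AVR.mwl_general _ (Pool.AVR.pll_thm K _) hfin

open Classical in
/-- The points form a finitely generated group without elements of order two, and `2 ^ rank` is at
most the number of the elements of the Selmer group plus one. -/
theorem rka {K : Type} [Field K] [NumberField K] {f : K[X]} (hf : f.Monic) (hd : f.natDegree = 3)
    (hirr : Irreducible f) (hfin : (Sel2 f).Finite) :
    AddGroup.FG (PtG f) ∧ 2 ^ Module.finrank ℤ (PtG f) ≤ (Sel2 f).ncard + 1 := by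
  have hsep : f.Separable := hirr.separable
  obtain ⟨h1, h3⟩ := emba two_ne_zero hf hd hirr hsep hfin
  have h4 := mwk hf hd hsep h1
  exact ⟨h4, ((Pool.AVR.rnk_thm _ h4).2.1).trans h3⟩

end Mw

end H33B

end Pool.NFA
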