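import Pool.Agent.H33.NF.K
import Pool.Agent.H41.NF.Cnt
import Pool.Agent.H2.NF.S3

/-!
# NFA: the average size of the 2-Selmer groups over a number field is bounded (statements)

`f` is a monic irreducible cubic polynomial over `K`; the classes are the units of `K[x]/(f)` modulo
squares.
-/

set_option autoImplicit false

namespace Pool.NFA

open Polynomial Matrix NumberField IsDedekindDomain Pool.HYP Pool.TOW Pool.AVS Pool.T1 Pool.NF

section Defs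

variable {K : Type} [Field K]

/-- The squares of the units of `K[x]/(f)`. -/
noncomputable abbrev Sq2 (f : K[X]) : Subgroup (AdjoinRoot f)ˣ :=
  (powMonoidHom 2 : (AdjoinRoot f)ˣ →* (AdjoinRoot f)ˣ).range

/-- The class of `p` is the class `x₁ - x` of a point `(x₁, y₁)`, `y₁ ≠ 0`, of `y² = f(x)`. -/
def PtC (f p : K[X]) : Prop :=
  ∃ (x y : K) (s : K[X]), y ^ 2 = f.eval x ∧ y ≠ 0 ∧ f ∣ (C x - X) - p * s ^ 2

/-- Over every completion of `K` (at a finite place) the class of `p` is the class of a point. -/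
def LocE (f p : K[X]) : Prop :=
  ∀ (L : Type) [Field L] (O : ValuationSubring L) (ι : K →+* L), Cpl K L O ι →
    PtC (f.map ι) (p.map ι)

/-- The 2-Selmer group of `y² = f(x)` (without the conditions at the real places: the group defined
here contains the 2-Selmer group): the classes modulo squares of the units of `K[x]/(f)` whose norm
is a square and which are, over every completion of `K` at a finite place, classes of points. -/
def Sel2 (f : K[X]) : Set ((AdjoinRoot f)ˣ ⧸ Sq2 f) :=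
  {ξ | ∃ (u : (AdjoinRoot f)ˣ) (p : K[X]), (QuotientGroup.mk u : (AdjoinRoot f)ˣ ⧸ Sq2 f) = ξ ∧
    AdjoinRoot.mk f p = (u : AdjoinRoot f) ∧ NSq f p ∧ LocE f p}

/-- `p` represents a nontrivial class of `Sel2`. -/
def Ntr (f p : K[X]) : Prop :=
  IsCoprime p f ∧ NSq f p ∧ LocE f p ∧ ¬ ∃ s : K[X], f ∣ p - s ^ 2

end Defs

section Fam

variable (K : Type) [Field K] [NumberField K]

/-- The elements of `AllN` with `a_1 = 0`. -/
def ShtN (Y : ℝ) : Set (𝓞 K)[X] := {f ∈ AllN K Y | f.coeff 2 = 0}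

variable {K}

/-- A finite set of pairs of an irreducible cubic polynomial of the family and of a nontrivial
Selmer class of it, all different. -/
def Prs (F : Set (𝓞 K)[X]) (A : Finset ((𝓞 K)[X] × K[X])) : Prop :=
  (∀ z ∈ A, z.1 ∈ F ∧ Irreducible (fk K z.1) ∧ Ntr (fk K z.1) z.2) ∧
    ∀ z ∈ A, ∀ w ∈ A, z.1 = w.1 → (∃ s : K[X], fk K z.1 ∣ z.2 - w.2 * s ^ 2) → z = w

/-- The pair of matrices of the class `z.2` of `z.1`. -/
def PMA (B : ℝ) (Y : ℝ) (d : Fin 3 → ℤ) (z : (𝓞 K)[X] × K[X])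
    (E : Matrix (Fin 3) (Fin 3) K) (G S : Matrix (Fin 3) (Fin 3) (𝓞 K)) : Prop :=
  E.det ≠ 0 ∧ Eᵀ * gr 0 3 (fk K z.1) z.2 * E = G.map (algebraMap (𝓞 K) K) ∧
    Eᵀ * gr 1 3 (fk K z.1) z.2 * E = S.map (algebraMap (𝓞 K) K) ∧
    (∀ i j, G i j ∈ Bx K (B * Real.exp ((d i + d j : ℤ) : ℝ))) ∧
    (∀ i j, S i j ∈ Bx K (B * Y * Real.exp ((d i + d j : ℤ) : ℝ))) ∧ G.det ≠ 0 ∧
    ¬ (G 0 0 = 0 ∧ S 0 0 = 0)

variable (K)

/-- The average over the family `F` is bounded, and few elements of `F` are reducible. -/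
def AvgB (F : ℝ → Set (𝓞 K)[X]) : Prop :=
  ∃ C : ℝ, ∀ Y : ℝ, 1 ≤ Y → (F Y).Finite ∧ 0 < (F Y).ncard ∧
    (∀ f ∈ F Y, Irreducible (fk K f) → (Sel2 (fk K f)).Finite) ∧
    ∑ᶠ f ∈ {f ∈ F Y | Irreducible (fk K f)}, ((Sel2 (fk K f)).ncard : ℝ) ≤ C * (F Y).ncard ∧
    Y * ({f ∈ F Y | ¬ Irreducible (fk K f)}.ncard : ℝ) ≤ C * (F Y).ncard

end Fam

/-! ### Local lattices -/

/-- LPI: the lattice of a point with integral coordinates.  (`f = (X - x) q + y²`, basis `1`, `X`,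
`q / y` of `L[X]/(f)`: the matrix of `τ(a b (x - X))` is `[0, -1, 0; -1, x + a_1, 0; 0, 0, 1]`, the
entries of that of `τ(a b X (x - X))` are `-1`, `x + a_1`, `0`, `τ(X³ (x - X))`, `y`, `τ(X q)`.) -/
def LPIStmt : Prop :=
  ∀ (L : Type) [Field L] (O : ValuationSubring L) (f : L[X]) (x y : L), f.Monic →
    f.natDegree = 3 → (∀ i, f.coeff i ∈ O) → x ∈ O → y ^ 2 = f.eval x → y ≠ 0 →
    ∃ b : Matrix (Fin 3) (Fin 3) L, GIn (O : Set L) (bᵀ * gr 0 3 f (C x - X) * b) ∧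
      MIn (O : Set L) (bᵀ * gr 1 3 f (C x - X) * b)

/-- LPU: the lattice of a point with non-integral coordinates.  (`t = x / y`, basis `t`, `t X`,
`t X²`: `t² (x - X) = η - t² X` with `η = t² x`, `η^(-1) = 1 + a_1 / x + a_2 / x² + a_3 / x³` a unit,
`t ∈ O`; the entries are `τ(X^k (η - t² X))`, the determinant of `gr 0 3 f (η - t² X)` is up to sign
the norm `t^6 f(x) = t^6 y² = η²`.) -/
def LPUStmt : Prop :=
  ∀ (L : Type) [Field L] (O : ValuationSubring L) (f : L[X]) (x y : L), f.Monic →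
    f.natDegree = 3 → (∀ i, f.coeff i ∈ O) → x ∉ O → y ^ 2 = f.eval x → y ≠ 0 →
    ∃ b : Matrix (Fin 3) (Fin 3) L, GIn (O : Set L) (bᵀ * gr 0 3 f (C x - X) * b) ∧
      MIn (O : Set L) (bᵀ * gr 1 3 f (C x - X) * b)

/-- DSC: from the completion to `K`.  (Approximate the entries of `b` by elements of `K`:
`b⁻¹ b'` is congruent to `1` modulo the maximal ideal.) -/
def DSCStmt : Prop :=
  ∀ (K : Type) [Field K] (I : Set K) (L : Type) [Field L] (O : ValuationSubring L)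
    (ι : K →+* L), Cpl K L O ι → (∀ x : K, ι x ∈ O ↔ x ∈ I) →
    ∀ (n : ℕ) (A₀ A₁ : Matrix (Fin n) (Fin n) K) (b : Matrix (Fin n) (Fin n) L),
    GIn (O : Set L) (bᵀ * A₀.map ι * b) → MIn (O : Set L) (bᵀ * A₁.map ι * b) →
    ∃ b' : Matrix (Fin n) (Fin n) K, GIn I (b'ᵀ * A₀ * b') ∧ MIn I (b'ᵀ * A₁ * b')

/-- LOC: the local lattice at every prime.  (CMP2; LPI, LPU; `sqi` of HYP for the factor `s²`;
DSC.) -/
def LOCAStmt : Prop :=
  ∀ (K : Type) [Field K] [NumberField K] (f : (𝓞 K)[X]) (p : K[X]), f.Monic →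
    f.natDegree = 3 → IsCoprime p (fk K f) → LocE (fk K f) p →
    ∀ P : HeightOneSpectrum (𝓞 K), ∃ b : Matrix (Fin 3) (Fin 3) K,
      GIn (RP K P) (bᵀ * gr 0 3 (fk K f) p * b) ∧ MIn (RP K P) (bᵀ * gr 1 3 (fk K f) p * b)

/-- LAG: the global lattice (as LATTK, `H30/T1/LATTK`). -/
def LAGStmt : Prop :=
  ∀ (R : Type) [CommRing R] [IsDedekindDomain R] (K : Type) [Field K] [Algebra R K]
    [IsFractionRing R K] (n : ℕ) (f : R[X]) (α : K[X]),
    f.Monic → f.natDegree = n → IsCoprime α (fk K f) →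
    (∀ P : HeightOneSpectrum R, ∃ b : Matrix (Fin n) (Fin n) K,
      GIn (RP K P) (bᵀ * gr 0 n (fk K f) α * b) ∧ MIn (RP K P) (bᵀ * gr 1 n (fk K f) α * b)) →
    ∃ Λ : Submodule R (Fin n → K),
      (∃ E : Matrix (Fin n) (Fin n) K, E.det ≠ 0 ∧ ∀ j, (fun i => E i j) ∈ Λ) ∧
      (∀ y : Fin n → K, y ∈ Λ ↔
        ∀ x ∈ Λ, x ⬝ᵥ (gr 0 n (fk K f) α *ᵥ y) ∈ Set.range (algebraMap R K)) ∧
      ∀ x ∈ Λ, ∀ y ∈ Λ, x ⬝ᵥ (gr 1 n (fk K f) α *ᵥ y) ∈ Set.range (algebraMap R K)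

/-! ### The pair of matrices -/

/-- INFA: the archimedean places (as INFN; the roots have absolute value at most `2 Y`). -/
def INFAStmt : Prop :=
  ∀ (K : Type) [Field K] [NumberField K] (f : (𝓞 K)[X]) (Y : ℝ) (α : K[X]), 1 ≤ Y →
    f ∈ AllN K Y → Irreducible (fk K f) → IsCoprime α (fk K f) →
    ∃ g : (K →+* ℂ) → Matrix (Fin 3) (Fin 3) ℂ,
      (∀ σ, g (ComplexEmbedding.conjugate σ) = (g σ).map (starRingEnd ℂ)) ∧
      ∀ σ, (g σ).det ≠ 0 ∧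
        (∀ i j, ‖((g σ)ᵀ * (gr 0 3 (fk K f) α).map σ * g σ) i j‖ ≤ 1) ∧
        4⁻¹ ≤ ‖((g σ)ᵀ * (gr 0 3 (fk K f) α).map σ * g σ).det‖ ∧
        ∀ i j, ‖((g σ)ᵀ * (gr 1 3 (fk K f) α).map σ * g σ) i j‖ ≤ 2 * Y

/-- KEYA: the pair of matrices of a nontrivial class (as KEYN, `H90/NF/KEYN`). -/
def KEYAStmt : Prop :=
  ∀ (K : Type) [Field K] [NumberField K], ∃ B : ℝ, 1 ≤ B ∧
    ∀ (Y : ℝ) (f : (𝓞 K)[X]) (p : K[X]), 1 ≤ Y → f ∈ AllN K Y → Irreducible (fk K f) →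
    Ntr (fk K f) p → ∃ (d : Fin 3 → ℤ) (E : Matrix (Fin 3) (Fin 3) K)
      (G S : Matrix (Fin 3) (Fin 3) (𝓞 K)), Monotone d ∧ ((∑ i, d i : ℤ) : ℝ) ≤ B ∧
      PMA B Y d (f, p) E G S

/-- ORB: equivalent pairs of matrices belong to the same class.  (`U = B A⁻¹` satisfies
`gr₀(α) = Uᵀ gr₀(β) U` and `gr₁(α) = Uᵀ gr₁(β) U`; with the matrix `M` of the multiplication by `x`,
`gr₁ = gr₀ M`, so `U M = M U` and `U` is the multiplication by a polynomial `s`;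
`τ(x^(i+j) (α - β s²)) = 0` for all `i`, `j`.  If `α = β`, then `f ∣ 1 - s²`, `U = ± 1`.) -/
def ORBStmt : Prop :=
  ∀ (K : Type) [Field K] (f α β : K[X]) (A B : Matrix (Fin 3) (Fin 3) K), f.Monic →
    f.natDegree = 3 → Irreducible f → IsCoprime α f → IsCoprime β f → A.det ≠ 0 → B.det ≠ 0 →
    Aᵀ * gr 0 3 f α * A = Bᵀ * gr 0 3 f β * B → Aᵀ * gr 1 3 f α * A = Bᵀ * gr 1 3 f β * B →
    (∃ s : K[X], f ∣ α - β * s ^ 2) ∧ (α = β → A = B ∨ A = -B)

/-! ### Counting -/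

/-- CNA: classes with the same degrees (compare `orbit_cnt` of H50/NF/Cnt and NCO):
`(z, u) ↦ (uᵀ G u, uᵀ S u)` is injective by ORB; the polynomial is determined by the pencil. -/
def CNAStmt : Prop :=
  ∀ (K : Type) [Field K] [NumberField K] (C Y : ℝ) (D : TDat K) (d : Fin 3 → ℤ)
    (F : Set (𝓞 K)[X]) (A : Finset ((𝓞 K)[X] × K[X])), 0 ≤ C → 0 ≤ Y → D.T = ∅ → Monotone d →
    (∀ f ∈ F, f.Monic ∧ f.natDegree = 3) → Prs F A →
    (∀ z ∈ A, ∃ E G S, PMA C Y d z E G S) →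
    (PPn (9 * C) Y D fun i => (d i : ℝ)).Finite →
    A.card * (UUn K fun i => (d i : ℝ)).ncard ≤ (PPn (9 * C) Y D fun i => (d i : ℝ)).ncard

/-- CNB: the number of the classes (KEYA; NAD for the possible degrees, where the polynomial enters
only through `pen G S`; CNA, NPT, NUU for each `d`; NSU, NFI for the sum over `d`). -/
def CNBStmt : Prop :=
  ∀ (K : Type) [Field K] [NumberField K], ∃ C : ℝ, ∀ (Y : ℝ) (A : Finset ((𝓞 K)[X] × K[X])),
    1 ≤ Y → Prs (AllN K Y) A → (A.card : ℝ) ≤ C * Y ^ (6 * dg K)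

/-- TRA: translation of a class. -/
def TRAAStmt : Prop :=
  ∀ (K : Type) [Field K] (f p : K[X]) (c : K), f.Monic → Ntr f p →
    Ntr (f.comp (X - C c)) (p.comp (X - C c))

/-- CNS: the number of the classes of the short equations.  (The pairs
`(f(x - c), p(x - c))`, `c ∈ Bx Y`, are in `AllN K (3 Y)`, all different.) -/
def CNSStmt : Prop :=
  ∀ (K : Type) [Field K] [NumberField K], ∃ C : ℝ, ∀ (Y : ℝ) (A : Finset ((𝓞 K)[X] × K[X])),
    1 ≤ Y → Prs (ShtN K Y) A → (A.card : ℝ) ≤ C * Y ^ (5 * dg K)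

/-- SZA: the sizes of the families (BXU, BXL). -/
def SZAStmt : Prop :=
  ∀ (K : Type) [Field K] [NumberField K], ∃ c : ℝ, 0 < c ∧ ∀ Y : ℝ, 1 ≤ Y →
    (AllN K Y).Finite ∧ c * Y ^ (6 * dg K) ≤ (AllN K Y).ncard ∧
    c * Y ^ (5 * dg K) ≤ (ShtN K Y).ncard

/-- RDA: the reducible polynomials.  (A root `r` in `K` is in `𝓞 K` and in `Bx (2 Y)`;
`f = (x - r)(x² + u x + v)` with `u ∈ Bx (3 Y)`, `v ∈ Bx (7 Y²)`; for `a_1 = 0`, `u = r`.) -/
def RDAStmt : Prop :=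
  ∀ (K : Type) [Field K] [NumberField K], ∃ C : ℝ, ∀ Y : ℝ, 1 ≤ Y →
    ({f ∈ AllN K Y | ¬ Irreducible (fk K f)}.ncard : ℝ) ≤ C * Y ^ (4 * dg K) ∧
    ({f ∈ ShtN K Y | ¬ Irreducible (fk K f)}.ncard : ℝ) ≤ C * Y ^ (3 * dg K)

/-- SUM: from finite sets of pairs to the sum of the `Sel2`.  (Representatives of the nontrivial
elements of `Sel2`; the trivial class adds one for each `f`.) -/
def SUMAStmt : Prop :=
  ∀ (K : Type) [Field K] [NumberField K] (F : Set (𝓞 K)[X]) (M : ℝ), F.Finite →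
    (∀ f ∈ F, f.Monic) → (∀ A : Finset ((𝓞 K)[X] × K[X]), Prs F A → (A.card : ℝ) ≤ M) →
    (∀ f ∈ F, Irreducible (fk K f) → (Sel2 (fk K f)).Finite) ∧
    ∑ᶠ f ∈ {f ∈ F | Irreducible (fk K f)}, ((Sel2 (fk K f)).ncard : ℝ) ≤ M + F.ncard

/-- MAIN: bounded average over every number field. -/
def MAINAStmt : Prop :=
  ∀ (K : Type) [Field K] [NumberField K], AvgB K (AllN K) ∧ AvgB K (ShtN K)

end Pool.NFA
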