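import Pool.Agent.H33.NFA.A
import Pool.Agent.H2.HYP.KEY
import Pool.Agent.H94.HYP.GDT

/-!
# NFA, rows LPI and LPU: the lattice of a point over a local field
-/

set_option autoImplicit false

namespace Pool.NFA

open Polynomial Matrix Pool.HYP Pool.AVS

namespace H33P

section Tau

variable {L : Type} [Field L]

/-- A monic cubic polynomial. -/
theorem cub_eq {f : L[X]} (hf : f.Monic) (hd : f.natDegree = 3) :
    f = X ^ 3 + C (f.coeff 2) * X ^ 2 + C (f.coeff 1) * X + C (f.coeff 0) := by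
  have h1 := f.as_sum_range_C_mul_X_pow' (n := 4) (by rw [hd]; norm_num)
  have h3 : f.coeff 3 = 1 := by
    have := hf.coeff_natDegree
    rwa [hd] at this
  conv_lhs => rw [h1]
  simp only [Finset.sum_range_succ, Finset.sum_range_zero, zero_add, pow_zero, mul_one, pow_one]
  rw [h3, C_1, one_mul]
  ring

/-- `τ` of a polynomial of degree at most two. -/
theorem tau_two {f : L[X]} (hf : f.Monic) (hd : f.natDegree = 3) (a b c : L) :
    tau f (C a * X ^ 2 + C b * X + C c) = a := by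
  rw [tau_of_lt hf (by rw [hd]; exact lt_of_le_of_lt natDegree_quadratic_le (by norm_num)), hd]
  simp [coeff_X, coeff_C]

/-- `τ` modulo `f`. -/
theorem tau_eq {f p : L[X]} (hf : f.Monic) (hd : f.natDegree = 3) (k : L[X]) (a b c : L)
    (h : p = f * k + (C a * X ^ 2 + C b * X + C c)) : tau f p = a := by
  rw [tau_congr hf (q := C a * X ^ 2 + C b * X + C c) ⟨k, by rw [h]; ring⟩, tau_two hf hd]

/-- The matrix of the polynomials of degree at most two with the given coefficients. -/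
theorem gram {f h : L[X]} (hf : f.Monic) (b : Matrix (Fin 3) (Fin 3) L) (k : ℕ) (i j : Fin 3) :
    (bᵀ * gr k 3 f h * b) i j = tau f (X ^ k *
      ((C (b 0 i) + C (b 1 i) * X + C (b 2 i) * X ^ 2) *
        (C (b 0 j) + C (b 1 j) * X + C (b 2 j) * X ^ 2) * h)) := by
  rw [← H2.gr_comb]
  simp only [Fin.sum_univ_three, Fin.val_zero, Fin.val_one, Fin.val_two, pow_zero, mul_one, pow_one]

end Tau

end H33P

open H33P

/-- **LPI.** -/
theorem lpi : LPIStmt := by
  intro L _ O f x y hf hd hO hx hxy hy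
  obtain ⟨a, ha⟩ : ∃ a, a = f.coeff 2 := ⟨_, rfl⟩
  obtain ⟨b, hb⟩ : ∃ b, b = f.coeff 1 := ⟨_, rfl⟩
  obtain ⟨c, hc⟩ : ∃ c, c = f.coeff 0 := ⟨_, rfl⟩
  have hfe : f = X ^ 3 + C a * X ^ 2 + C b * X + C c := by
    rw [ha, hb, hc]
    exact cub_eq hf hd
  have haO : a ∈ O := ha ▸ hO 2
  have hbO : b ∈ O := hb ▸ hO 1
  have hcO : c ∈ O := hc ▸ hO 0
  have hy2 : y ^ 2 = x ^ 3 + a * x ^ 2 + b * x + c := by
    rw [hxy, hfe]
    simp
  have hyO : y ∈ O := by
    have h1 : y ^ 2 ∈ O := by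
      rw [hy2]
      exact O.add_mem _ _ (O.add_mem _ _ (O.add_mem _ _ (pow_mem hx 3)
        (O.mul_mem _ _ haO (pow_mem hx 2))) (O.mul_mem _ _ hbO hx)) hcO
    rcases O.mem_or_inv_mem y with h | h
    · exact h
    · have h2 : y = y ^ 2 * y⁻¹ := by field_simp
      rw [h2]
      exact O.mul_mem _ _ h1 h
  -- `f = (X - x) q + y²`, `q = X² + u X + v`
  obtain ⟨u, hu⟩ : ∃ u, u = x + a := ⟨_, rfl⟩
  obtain ⟨v, hv⟩ : ∃ v, v = x ^ 2 + a * x + b := ⟨_, rfl⟩
  have huO : u ∈ O := hu ▸ O.add_mem _ _ hx haO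
  have hvO : v ∈ O := hv ▸ O.add_mem _ _ (O.add_mem _ _ (pow_mem hx 2) (O.mul_mem _ _ haO hx)) hbO
  have hq : f = (X - C x) * (X ^ 2 + C u * X + C v) + C (y ^ 2) := by
    rw [hfe, hy2, hu, hv]
    simp only [C_add, C_mul, C_pow]
    ring
  obtain ⟨w, hw⟩ : ∃ w, w = y⁻¹ := ⟨_, rfl⟩
  have hwy : (C w : L[X]) * C y = 1 := by
    rw [← C_mul, hw, inv_mul_cancel₀ hy, C_1]
  obtain ⟨q, hqd⟩ : ∃ q : L[X], q = X ^ 2 + C u * X + C v := ⟨_, rfl⟩
  have hq1 : (C x - X) * q = C y ^ 2 - f := by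
    rw [hq, hqd, C_pow]
    ring
  obtain ⟨β, hβ⟩ : ∃ β : Matrix (Fin 3) (Fin 3) L, β = !![1, 0, v * w; 0, 1, u * w; 0, 0, w] :=
    ⟨_, rfl⟩
  have hG : βᵀ * gr 0 3 f (C x - X) * β = !![0, -1, 0; -1, u, 0; 0, 0, 1] := by
    refine Matrix.ext fun i j => ?_
    rw [gram hf, pow_zero, one_mul, hβ]
    fin_cases i <;> fin_cases j
    · refine tau_eq hf hd 0 _ (-1) x ?_
      simp [C_neg]
      ring
    · refine tau_eq hf hd 0 _ x 0 ?_
      simp [C_neg]
      ring
    · refine tau_eq hf hd (-C w) _ 0 y ?_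
      simp [C_mul]
      linear_combination (C w) * hq1 + (C w * (C x - X)) * (-hqd) + (C y) * hwy
    · refine tau_eq hf hd 0 _ x 0 ?_
      simp [C_neg]
      ring
    · refine tau_eq hf hd (-1) _ b c ?_
      simp [C_neg]
      rw [hfe, hu, C_add]
      ring
    · refine tau_eq hf hd (-(C w * X)) _ y 0 ?_
      simp [C_mul]
      linear_combination (C w * X) * hq1 + (C w * X * (C x - X)) * (-hqd) + (C y * X) * hwy
    · refine tau_eq hf hd (-C w) _ 0 y ?_
      simp [C_mul]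
      linear_combination (C w) * hq1 + (C w * (C x - X)) * (-hqd) + (C y) * hwy
    · refine tau_eq hf hd (-(C w * X)) _ y 0 ?_
      simp [C_mul]
      linear_combination (C w * X) * hq1 + (C w * X * (C x - X)) * (-hqd) + (C y * X) * hwy
    · refine tau_eq hf hd (-(C w ^ 2 * q)) _ u v ?_
      simp [C_mul]
      linear_combination (C w ^ 2 * q) * hq1 +
        (-(C w ^ 2 * (C x - X) * (q + (X ^ 2 + C u * X + C v))) + 1) * hqd +
        ((C w * C y + 1) * q) * hwy
  have hS : βᵀ * gr 1 3 f (C x - X) * β = !![-1, u, 0; u, b - a * u, y; 0, y, x] := by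
    refine Matrix.ext fun i j => ?_
    rw [gram hf, pow_one, hβ]
    fin_cases i <;> fin_cases j
    · refine tau_eq hf hd 0 _ x 0 ?_
      simp [C_neg]
      ring
    · refine tau_eq hf hd (-1) _ b c ?_
      simp [C_neg]
      rw [hfe, hu, C_add]
      ring
    · refine tau_eq hf hd (-(C w * X)) _ y 0 ?_
      simp [C_mul]
      linear_combination (C w * X) * hq1 + (C w * X * (C x - X)) * (-hqd) + (C y * X) * hwy
    · refine tau_eq hf hd (-1) _ b c ?_
      simp [C_neg]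
      rw [hfe, hu, C_add]
      ring
    · refine tau_eq hf hd (-X + C u) _ (c - b * u) (-(c * u)) ?_
      simp [C_neg, C_mul]
      rw [hfe, hu, C_add]
      ring
    · refine tau_eq hf hd (-(C w * X ^ 2)) _ 0 0 ?_
      simp [C_mul]
      linear_combination (C w * X ^ 2) * hq1 + (C w * X ^ 2 * (C x - X)) * (-hqd) +
        (C y * X ^ 2) * hwy
    · refine tau_eq hf hd (-(C w * X)) _ y 0 ?_
      simp [C_mul]
      linear_combination (C w * X) * hq1 + (C w * X * (C x - X)) * (-hqd) + (C y * X) * hwy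
    · refine tau_eq hf hd (-(C w * X ^ 2)) _ 0 0 ?_
      simp [C_mul]
      linear_combination (C w * X ^ 2) * hq1 + (C w * X ^ 2 * (C x - X)) * (-hqd) +
        (C y * X ^ 2) * hwy
    · refine tau_eq hf hd (-(C w ^ 2 * X * q) + 1) _ (v - b) (-c) ?_
      have hux : (C u : L[X]) = C x + C a := by rw [hu, C_add]
      simp [C_mul]
      linear_combination (C w ^ 2 * X * q) * hq1 +
        (-(C w ^ 2 * X * (C x - X) * (q + (X ^ 2 + C u * X + C v))) + X) * hqd +
        ((C w * C y + 1) * X * q) * hwy - hfe + X ^ 2 * hux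
  have h1O : (1 : L) ∈ O := O.one_mem
  have hn1O : (-1 : L) ∈ O := O.neg_mem _ h1O
  have h0O : (0 : L) ∈ O := O.zero_mem
  have hsO : b - a * u ∈ O := O.sub_mem hbO (O.mul_mem _ _ haO huO)
  refine ⟨β, ⟨fun i j => ?_, ?_⟩, fun i j => ?_⟩
  · rw [hG]
    fin_cases i <;> fin_cases j
    · exact h0O
    · exact hn1O
    · exact h0O
    · exact hn1O
    · exact huO
    · exact h0O
    · exact h0O
    · exact h0O
    · exact h1O
  · have hdt : (βᵀ * gr 0 3 f (C x - X) * β).det = -1 := by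
      rw [hG, Matrix.det_fin_three]
      simp
    rw [hdt]
    refine ⟨by norm_num, hn1O, ?_⟩
    have : (-1 : L)⁻¹ = -1 := by norm_num
    rw [this]
    exact hn1O
  · rw [hS]
    fin_cases i <;> fin_cases j
    · exact hn1O
    · exact huO
    · exact h0O
    · exact huO
    · exact hsO
    · exact hyO
    · exact h0O
    · exact hyO
    · exact hx

namespace H33P

section Step

variable {L : Type} [Field L]

theorem step {f P q : L[X]} {a b c g h k : L} (hf : f = X ^ 3 + C a * X ^ 2 + C b * X + C c)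
    (hP : P = f * q + (C g * X ^ 2 + C h * X + C k)) :
    X * P = f * (X * q + C g) +
      (C (h - a * g) * X ^ 2 + C (k - b * g) * X + C (-(c * g))) := by
  rw [hP]
  simp only [C_sub, C_neg, C_mul]
  linear_combination (-C g) * hf

theorem mem_step {O : ValuationSubring L} {a b c g h k : L} (ha : a ∈ O) (hb : b ∈ O)
    (hc : c ∈ O) (hg : g ∈ O) (hh : h ∈ O) (hk : k ∈ O) :
    h - a * g ∈ O ∧ k - b * g ∈ O ∧ -(c * g) ∈ O :=
  ⟨O.sub_mem hh (O.mul_mem _ _ ha hg), O.sub_mem hk (O.mul_mem _ _ hb hg),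
    O.neg_mem _ (O.mul_mem _ _ hc hg)⟩

theorem mem_of_sq {O : ValuationSubring L} {t : L} (h : t ^ 2 ∈ O) : t ∈ O := by
  rcases O.mem_or_inv_mem t with h1 | h1
  · exact h1
  · by_cases ht : t = 0
    · rw [ht]
      exact O.zero_mem
    · have h2 : t = t ^ 2 * t⁻¹ := by field_simp
      rw [h2]
      exact O.mul_mem _ _ h h1

end Step

end H33P

/-- **LPU.** -/
theorem lpu : LPUStmt := by
  intro L _ O f x y hf hd hO hx hxy hy
  obtain ⟨a, ha⟩ : ∃ a, a = f.coeff 2 := ⟨_, rfl⟩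
  obtain ⟨b, hb⟩ : ∃ b, b = f.coeff 1 := ⟨_, rfl⟩
  obtain ⟨c, hc⟩ : ∃ c, c = f.coeff 0 := ⟨_, rfl⟩
  have hfe : f = X ^ 3 + C a * X ^ 2 + C b * X + C c := by
    rw [ha, hb, hc]
    exact cub_eq hf hd
  have haO : a ∈ O := ha ▸ hO 2
  have hbO : b ∈ O := hb ▸ hO 1
  have hcO : c ∈ O := hc ▸ hO 0
  have hy2 : y ^ 2 = x ^ 3 + a * x ^ 2 + b * x + c := by
    rw [hxy, hfe]
    simp
  have hx0 : x ≠ 0 := fun h => hx (h ▸ O.zero_mem)
  obtain ⟨w, hw⟩ : ∃ w, w = x⁻¹ := ⟨_, rfl⟩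
  have hwO : w ∈ O := by
    rcases O.mem_or_inv_mem x with h | h
    · exact absurd h hx
    · exact hw ▸ h
  have hwv : O.valuation w < 1 := by
    refine lt_of_le_of_ne ((O.valuation_le_one_iff w).2 hwO) fun h => hx ?_
    rw [← O.valuation_le_one_iff, ← inv_inv x, ← hw, map_inv₀, h, inv_one]
  obtain ⟨e, he⟩ : ∃ e, e = a * w + b * w ^ 2 + c * w ^ 3 := ⟨_, rfl⟩
  have hev : O.valuation e < 1 := by
    have h1 : e = (a + b * w + c * w ^ 2) * w := by rw [he]; ring
    have h2 : a + b * w + c * w ^ 2 ∈ O :=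
      O.add_mem _ _ (O.add_mem _ _ haO (O.mul_mem _ _ hbO hwO)) (O.mul_mem _ _ hcO (pow_mem hwO 2))
    rw [h1, map_mul]
    exact lt_of_le_of_lt (mul_le_mul' ((O.valuation_le_one_iff _).2 h2) le_rfl)
      (by rw [one_mul]; exact hwv)
  have hev1 : O.valuation (1 + e) = 1 := O.valuation.map_one_add_of_lt hev
  have he0 : 1 + e ≠ 0 := fun h => by
    rw [h, map_zero] at hev1
    exact zero_ne_one hev1
  obtain ⟨t, ht⟩ : ∃ t, t = x / y := ⟨_, rfl⟩
  obtain ⟨η, hη⟩ : ∃ η, η = t ^ 2 * x := ⟨_, rfl⟩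
  have hye : y ^ 2 = x ^ 3 * (1 + e) := by
    rw [hy2, he, hw]
    field_simp
    try ring
  have hηe : η * (1 + e) = 1 := by
    rw [hη, ht]
    field_simp
    rw [hye]
    try ring
  have hη0 : η ≠ 0 := left_ne_zero_of_mul_eq_one hηe
  have hηv : O.valuation η = 1 := by
    have h1 := congrArg O.valuation hηe
    rw [map_mul, hev1, mul_one, map_one] at h1
    exact h1
  have hηO : η ∈ O := (O.valuation_le_one_iff _).1 hηv.le
  have hηiO : η⁻¹ ∈ O := by
    rw [← O.valuation_le_one_iff, map_inv₀, hηv, inv_one]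
  obtain ⟨m, hm⟩ : ∃ m, m = t ^ 2 := ⟨_, rfl⟩
  have hmO : m ∈ O := by
    have h1 : m = η * w := by rw [hm, hη, hw]; field_simp
    rw [h1]
    exact O.mul_mem _ _ hηO hwO
  have ht0 : t ≠ 0 := by rw [ht]; exact div_ne_zero hx0 hy
  -- the traces
  have e0 : (C η - C m * X : L[X]) = f * 0 + (C 0 * X ^ 2 + C (-m) * X + C η) := by
    rw [C_0, C_neg]
    ring
  have e1 := step hfe e0
  have e2 := step hfe e1
  have e3 := step hfe e2
  have e4 := step hfe e3
  have e5 := step hfe e4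
  have hT0 := tau_eq hf hd _ _ _ _ e0
  have hT1 := tau_eq hf hd _ _ _ _ e1
  have hT2 := tau_eq hf hd _ _ _ _ e2
  have hT3 := tau_eq hf hd _ _ _ _ e3
  have hT4 := tau_eq hf hd _ _ _ _ e4
  have hT5 := tau_eq hf hd _ _ _ _ e5
  have hdg : ∀ k (i j : Fin 3), ((Matrix.diagonal fun _ : Fin 3 => t)ᵀ * gr k 3 f (C x - X) *
      Matrix.diagonal fun _ : Fin 3 => t) i j =
      tau f (X ^ ((i : ℕ) + (j : ℕ) + k) * (C η - C m * X)) := fun k i j => by
    rw [Matrix.diagonal_transpose, Matrix.mul_diagonal, Matrix.diagonal_mul]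
    have h1 : (X : L[X]) ^ ((i : ℕ) + (j : ℕ) + k) * (C η - C m * X) =
        C m * (X ^ ((i : ℕ) + (j : ℕ) + k) * (C x - X)) := by
      rw [hη, ← hm, C_mul]
      ring
    rw [h1, tau_C_mul, hm]
    show t * tau f _ * t = _
    ring
  have hmw : m = η * w := by rw [hm, hη, hw]; field_simp
  obtain ⟨P, hP⟩ : ∃ P : L[X], P = C η - C m * X := ⟨_, rfl⟩
  rw [← hP] at hT0 hT1 hT2 hT3 hT4 hT5 hdg
  have M0 : -m ∈ O := O.neg_mem _ hmO
  have M1 := mem_step haO hbO hcO O.zero_mem M0 hηO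
  have M2 := mem_step haO hbO hcO M1.1 M1.2.1 M1.2.2
  have M3 := mem_step haO hbO hcO M2.1 M2.2.1 M2.2.2
  have M4 := mem_step haO hbO hcO M3.1 M3.2.1 M3.2.2
  have M5 := mem_step haO hbO hcO M4.1 M4.2.1 M4.2.2
  have q1 : X * P = X ^ 1 * P := by rw [pow_one]
  have q2 : X * (X * P) = X ^ 2 * P := by ring
  have q3 : X * (X * (X * P)) = X ^ 3 * P := by ring
  have q4 : X * (X * (X * (X * P))) = X ^ 4 * P := by ring
  have q5 : X * (X * (X * (X * (X * P)))) = X ^ 5 * P := by ring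
  have hV0 : tau f (X ^ 0 * P) = 0 := by rw [pow_zero, one_mul]; exact hT0
  have hV1 := hT1
  have hV2 := hT2
  have hV3 := hT3
  have hV4 := hT4
  have hV5 := hT5
  rw [q1] at hV1
  rw [q2] at hV2
  rw [q3] at hV3
  rw [q4] at hV4
  rw [q5] at hV5
  have V0 : tau f (X ^ 0 * P) ∈ O := by rw [hV0]; exact O.zero_mem
  have V1 : tau f (X ^ 1 * P) ∈ O := by rw [hV1]; exact M1.1
  have V2 : tau f (X ^ 2 * P) ∈ O := by rw [hV2]; exact M2.1
  have V3 : tau f (X ^ 3 * P) ∈ O := by rw [hV3]; exact M3.1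
  have V4 : tau f (X ^ 4 * P) ∈ O := by rw [hV4]; exact M4.1
  have V5 : tau f (X ^ 5 * P) ∈ O := by rw [hV5]; exact M5.1
  refine ⟨Matrix.diagonal fun _ : Fin 3 => t, ⟨fun i j => ?_, ?_⟩, fun i j => ?_⟩
  · rw [hdg]
    fin_cases i <;> fin_cases j
    · exact V0
    · exact V1
    · exact V2
    · exact V1
    · exact V2
    · exact V3
    · exact V2
    · exact V3
    · exact V4
  · have hG : (Matrix.diagonal fun _ : Fin 3 => t)ᵀ * gr 0 3 f (C x - X) *
        (Matrix.diagonal fun _ : Fin 3 => t) =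
        !![tau f (X ^ 0 * P), tau f (X ^ 1 * P), tau f (X ^ 2 * P);
          tau f (X ^ 1 * P), tau f (X ^ 2 * P), tau f (X ^ 3 * P);
          tau f (X ^ 2 * P), tau f (X ^ 3 * P), tau f (X ^ 4 * P)] := by
      refine Matrix.ext fun i j => ?_
      rw [hdg]
      fin_cases i <;> fin_cases j <;> rfl
    have hdt : ((Matrix.diagonal fun _ : Fin 3 => t)ᵀ * gr 0 3 f (C x - X) *
        Matrix.diagonal fun _ : Fin 3 => t).det = -η ^ 2 := by
      rw [hG, Matrix.det_fin_three]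
      simp only [Matrix.of_apply, Matrix.cons_val', Matrix.cons_val_zero, Matrix.cons_val_one,
        Matrix.cons_val, hV0, hV1, hV2, hV3, hV4, hmw]
      rw [he] at hηe
      linear_combination (-η ^ 2) * hηe
    rw [hdt]
    refine ⟨neg_ne_zero.2 (pow_ne_zero 2 hη0), O.neg_mem _ (pow_mem hηO 2), ?_⟩
    have h1 : (-η ^ 2)⁻¹ = -(η⁻¹) ^ 2 := by rw [inv_neg, inv_pow]
    rw [h1]
    exact O.neg_mem _ (pow_mem hηiO 2)
  · rw [hdg]
    fin_cases i <;> fin_cases j
    · exact V1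
    · exact V2
    · exact V3
    · exact V2
    · exact V3
    · exact V4
    · exact V3
    · exact V4
    · exact V5

end Pool.NFA
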