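import Pool.Agent.H33.NFA.B

/-!
# NFA: the main theorem from the rows
-/

set_option autoImplicit false

namespace Pool.NFA

open Polynomial Matrix NumberField IsDedekindDomain Pool.HYP Pool.TOW Pool.T1 Pool.NF
open Pool.AVR (Mod2 Pt cub OnC finsum_mem_le finsum_mem_const)
open H33B

section

variable (K : Type) [Field K] [NumberField K]

open Classical in
/-- For the irreducible elements of the family `F` the Selmer group is finite, the group of the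
points is finitely generated, the averages of the number of the elements of the Selmer group and of
`2 ^ rank` are bounded; few elements of `F` are reducible. -/
def AvgE (F : ℝ → Set (𝓞 K)[X]) : Prop :=
  ∃ C : ℝ, ∀ Y : ℝ, 1 ≤ Y → (F Y).Finite ∧ 0 < (F Y).ncard ∧
    (∀ f ∈ F Y, Irreducible (fk K f) → (Sel2 (fk K f)).Finite ∧ AddGroup.FG (PtG (fk K f)) ∧
      2 ^ Module.finrank ℤ (PtG (fk K f)) ≤ (Sel2 (fk K f)).ncard + 1) ∧
    ∑ᶠ f ∈ {f ∈ F Y | Irreducible (fk K f)}, ((Sel2 (fk K f)).ncard : ℝ) ≤ C * (F Y).ncard ∧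
    ∑ᶠ f ∈ {f ∈ F Y | Irreducible (fk K f)}, (2 : ℝ) ^ Module.finrank ℤ (PtG (fk K f)) ≤
      C * (F Y).ncard ∧
    Y * ({f ∈ F Y | ¬ Irreducible (fk K f)}.ncard : ℝ) ≤ C * (F Y).ncard

end

theorem avgB_of {K : Type} [Field K] [NumberField K] (F : ℝ → Set (𝓞 K)[X]) (m k : ℕ)
    (hk : k + 1 ≤ m) (c C₁ C₂ : ℝ) (hc : 0 < c)
    (hF : ∀ Y : ℝ, 1 ≤ Y → (F Y).Finite ∧ c * Y ^ m ≤ (F Y).ncard)
    (hmon : ∀ Y, ∀ f ∈ F Y, f.Monic)
    (hA : ∀ (Y : ℝ) (A : Finset ((𝓞 K)[X] × K[X])), 1 ≤ Y → Prs (F Y) A →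
      (A.card : ℝ) ≤ C₁ * Y ^ m)
    (hR : ∀ Y : ℝ, 1 ≤ Y → ({f ∈ F Y | ¬ Irreducible (fk K f)}.ncard : ℝ) ≤ C₂ * Y ^ k)
    (hS : SUMAStmt) : AvgB K F := by
  refine ⟨max (|C₁| / c + 1) (|C₂| / c), fun Y hY => ?_⟩
  obtain ⟨hfin, hlow⟩ := hF Y hY
  have hY0 : (0 : ℝ) < Y := lt_of_lt_of_le one_pos hY
  have hpos : (0 : ℝ) < (F Y).ncard := lt_of_lt_of_le (by positivity) hlow
  have hYm : Y ^ m ≤ (F Y).ncard / c := by
    rw [le_div_iff₀ hc]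
    linarith
  have hn0 : (0 : ℝ) ≤ (F Y).ncard := hpos.le
  obtain ⟨h1, h2⟩ := hS K (F Y) (C₁ * Y ^ m) hfin (hmon Y) fun A hA' => hA Y A hY hA'
  refine ⟨hfin, by exact_mod_cast hpos, h1, h2.trans ?_, ?_⟩
  · have h3 : C₁ * Y ^ m ≤ |C₁| / c * (F Y).ncard := by
      calc C₁ * Y ^ m ≤ |C₁| * Y ^ m :=
            mul_le_mul_of_nonneg_right (le_abs_self _) (by positivity)
        _ ≤ |C₁| * ((F Y).ncard / c) := mul_le_mul_of_nonneg_left hYm (abs_nonneg _)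
        _ = |C₁| / c * (F Y).ncard := by ring
    calc C₁ * Y ^ m + (F Y).ncard ≤ (|C₁| / c + 1) * (F Y).ncard := by linarith
      _ ≤ _ := mul_le_mul_of_nonneg_right (le_max_left _ _) hn0
  · have h3 : Y * (C₂ * Y ^ k) ≤ |C₂| / c * (F Y).ncard := by
      calc Y * (C₂ * Y ^ k) = C₂ * Y ^ (k + 1) := by ring
        _ ≤ |C₂| * Y ^ (k + 1) := mul_le_mul_of_nonneg_right (le_abs_self _) (by positivity)
        _ ≤ |C₂| * Y ^ m := mul_le_mul_of_nonneg_left (pow_le_pow_right₀ hY hk) (abs_nonneg _)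
        _ ≤ |C₂| * ((F Y).ncard / c) := mul_le_mul_of_nonneg_left hYm (abs_nonneg _)
        _ = |C₂| / c * (F Y).ncard := by ring
    calc Y * ({f ∈ F Y | ¬ Irreducible (fk K f)}.ncard : ℝ) ≤ Y * (C₂ * Y ^ k) :=
          mul_le_mul_of_nonneg_left (hR Y hY) hY0.le
      _ ≤ |C₂| / c * (F Y).ncard := h3
      _ ≤ _ := mul_le_mul_of_nonneg_right (le_max_right _ _) hn0

/-- **MAINA.** -/
theorem maina (hB : CNBStmt) (hC : CNSStmt) (hZ : SZAStmt) (hR : RDAStmt) (hS : SUMAStmt) :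
    MAINAStmt := by
  intro K _ _
  have hn : 1 ≤ dg K := Module.finrank_pos
  obtain ⟨c, hc, hZ⟩ := hZ K
  obtain ⟨C₂, hR⟩ := hR K
  obtain ⟨C₁, hB⟩ := hB K
  obtain ⟨C₃, hC⟩ := hC K
  constructor
  · exact avgB_of (AllN K) (6 * dg K) (4 * dg K) (by omega) c C₁ C₂ hc
      (fun Y hY => ⟨(hZ Y hY).1, (hZ Y hY).2.1⟩) (fun Y f hf => hf.1) hB (fun Y hY => (hR Y hY).1)
      hS
  · exact avgB_of (ShtN K) (5 * dg K) (3 * dg K) (by omega) c C₃ C₂ hc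
      (fun Y hY => ⟨(hZ Y hY).1.subset (Set.sep_subset _ _), (hZ Y hY).2.2⟩)
      (fun Y f hf => hf.1.1) hC (fun Y hY => (hR Y hY).2) hS

theorem avgE_of {K : Type} [Field K] [NumberField K] (F : ℝ → Set (𝓞 K)[X])
    (hmon : ∀ Y, ∀ f ∈ F Y, f.Monic ∧ f.natDegree = 3) (h : AvgB K F) : AvgE K F := by
  classical
  obtain ⟨C, hC⟩ := h
  refine ⟨max (C + 1) C, fun Y hY => ?_⟩
  obtain ⟨h1, h2, h3, h4, h5⟩ := hC Y hY
  have hn0 : (0 : ℝ) ≤ (F Y).ncard := Nat.cast_nonneg _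
  have hC1 : C * (F Y).ncard ≤ max (C + 1) C * (F Y).ncard :=
    mul_le_mul_of_nonneg_right (le_max_right _ _) hn0
  have hrk : ∀ f ∈ F Y, Irreducible (fk K f) → AddGroup.FG (PtG (fk K f)) ∧
      2 ^ Module.finrank ℤ (PtG (fk K f)) ≤ (Sel2 (fk K f)).ncard + 1 := fun f hf hirr => by
    obtain ⟨hm, hd⟩ := hmon Y f hf
    exact rka (hm.map _) (by rw [hm.natDegree_map, hd]) hirr (h3 f hf hirr)
  refine ⟨h1, h2, fun f hf hirr => ⟨h3 f hf hirr, hrk f hf hirr⟩, h4.trans hC1, ?_, h5.trans hC1⟩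
  have hs : {f ∈ F Y | Irreducible (fk K f)}.Finite := h1.subset fun f hf => hf.1
  calc ∑ᶠ f ∈ {f ∈ F Y | Irreducible (fk K f)}, (2 : ℝ) ^ Module.finrank ℤ (PtG (fk K f))
      ≤ ∑ᶠ f ∈ {f ∈ F Y | Irreducible (fk K f)}, (((Sel2 (fk K f)).ncard : ℝ) + 1) := by
        refine finsum_mem_le hs fun f hf => ?_
        have := (hrk f hf.1 hf.2).2
        exact_mod_cast this
    _ = ∑ᶠ f ∈ {f ∈ F Y | Irreducible (fk K f)}, ((Sel2 (fk K f)).ncard : ℝ) +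
        ∑ᶠ f ∈ {f ∈ F Y | Irreducible (fk K f)}, (1 : ℝ) := finsum_mem_add_distrib hs
    _ ≤ C * (F Y).ncard + (F Y).ncard := by
        refine add_le_add h4 ?_
        rw [finsum_mem_const hs, mul_one]
        exact_mod_cast Set.ncard_le_ncard (Set.sep_subset _ _) h1
    _ = (C + 1) * (F Y).ncard := by ring
    _ ≤ _ := mul_le_mul_of_nonneg_right (le_max_left _ _) hn0

/-- Bounded averages over every number field. -/
theorem maine (h : MAINAStmt) (K : Type) [Field K] [NumberField K] :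
    AvgE K (AllN K) ∧ AvgE K (ShtN K) :=
  ⟨avgE_of _ (fun _ _ hf => ⟨hf.1, hf.2.1⟩) (h K).1,
    avgE_of _ (fun _ _ hf => ⟨hf.1.1, hf.1.2.1⟩) (h K).2⟩

end Pool.NFA
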